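import Pool.Agent.Lib.MP_1ce42f_lc.Final

/-!
# `1 | r_j, p_j ≤ c | Σ U_j` is strongly NP-hard for every constant `c ≥ 20`

The answer to Q1: the problem with unit weights and processing times at most `20` is NP-hard, so
it has no polynomial-time algorithm unless `NP ⊆ P`.
-/

open N68a2faeb N793a5b8e N487b59b3

namespace Pool.Agent.Results.MP_1ce42f_lc.UnitWeights

open Pool.Agent.LateJobs

theorem result (c : ℕ) (hc : 20 ≤ c) :
    (∀ L ∈ NP, ∃ f : List Bool → List Bool, IsPolyTime f ∧ ∀ x, L x = lateJobs c (f x) ∧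
      ∃ (J : List (ℕ × ℕ × ℤ)) (k : ℕ), f x = bitEncode (J, k) ∧
        ∀ j ∈ J, (1 ≤ j.2.1 ∧ j.2.1 ≤ 20) ∧ j.1 ≤ 11 * J.length ∧ 0 ≤ j.2.2 ∧ j.2.2 ≤ 11 * J.length) ∧
    (lateJobs c ∈ P → NP ⊆ P) :=
  ⟨lateJobs_hard c hc, np_subset_p_of_lateJobs c hc⟩

end Pool.Agent.Results.MP_1ce42f_lc.UnitWeights
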